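import Pool.Agent.Q200.Frame

set_option autoImplicit false

namespace Pool.Agent.Results.MP_4cbb29_co.BroomComplements

open Matrix Module

/-! ### Definitions -/

section defs
variable {V : Type} [Fintype V] [DecidableEq V]

/-- `S(G)`: real symmetric matrices whose off-diagonal zero pattern is given by `G`. -/
def S (G : SimpleGraph V) : Set (Matrix V V ℝ) :=
  {A | A.IsSymm ∧ ∀ i j, i ≠ j → (A i j ≠ 0 ↔ G.Adj i j)}

/-- `q(G)`: the minimum number of distinct eigenvalues of a matrix in `S(G)`. -/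
noncomputable def q (G : SimpleGraph V) : ℕ := sInf {k | ∃ A ∈ S G, (spectrum ℝ A).ncard = k}

/-- `G` achieves the multiplicity bipartition `[N - k, k]`: some matrix in `S(G)` has exactly two
distinct eigenvalues, of multiplicities `N - k` and `k`. -/
def Achieves (G : SimpleGraph V) (k : ℕ) : Prop :=
  ∃ A ∈ S G, ∃ a b : ℝ, a ≠ b ∧ spectrum ℝ A = {a, b} ∧
    finrank ℝ (End.eigenspace (Matrix.toLin' A) a) = Fintype.card V - k ∧
    finrank ℝ (End.eigenspace (Matrix.toLin' A) b) = k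

/-- `MB(G) = k`: `k` is the least integer with `1 ≤ k ≤ N/2` such that `G` achieves `[N - k, k]`. -/
def IsMB (G : SimpleGraph V) (k : ℕ) : Prop :=
  IsLeast {k | 1 ≤ k ∧ 2 * k ≤ Fintype.card V ∧ Achieves G k} k

end defs

/-- The relation behind the double broom: path edges, `m` leaves at the first path vertex, `n`
leaves at the last path vertex. -/
def R (r m n : ℕ) : Fin r ⊕ (Fin m ⊕ Fin n) → Fin r ⊕ (Fin m ⊕ Fin n) → Prop
  | .inl i, .inl j => i.val + 1 = j.val
  | .inl i, .inr (.inl _) => i.val = 0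
  | .inl i, .inr (.inr _) => i.val + 1 = r
  | _, _ => False

/-- The double broom `S^r_{m,n}`: a path on `r` vertices with `m` leaves attached to one endpoint
and `n` leaves attached to the other. -/
def broom (r m n : ℕ) : SimpleGraph (Fin r ⊕ (Fin m ⊕ Fin n)) := SimpleGraph.fromRel (R r m n)

/-! ### small vectors with sum zero -/

theorem exists_small (m : ℕ) (hm : 2 ≤ m) : ∃ x : Fin m → ℝ, ∑ i, x i = 0 ∧
    ∀ i, x i ≠ 0 ∧ |x i| ≤ 1 / 4 := by
  obtain ⟨k, rfl⟩ : ∃ k, m = k + 1 := ⟨m - 1, by omega⟩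
  have hk : (0 : ℝ) < k := by
    have : 1 ≤ k := by omega
    exact_mod_cast this
  refine ⟨Fin.cons (-(1 / 4)) (fun _ => 1 / (4 * k)), ?_, ?_⟩
  · rw [Fin.sum_univ_succ]
    simp only [Fin.cons_zero, Fin.cons_succ, Finset.sum_const, Finset.card_univ, Fintype.card_fin,
      nsmul_eq_mul]
    field_simp
    norm_num
  · intro i
    refine Fin.cases ?_ (fun j => ?_) i
    · simp only [Fin.cons_zero]
      constructor
      · norm_num
      · rw [abs_neg, abs_of_pos (by norm_num)]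
    · simp only [Fin.cons_succ]
      constructor
      · positivity
      · rw [abs_of_pos (by positivity)]
        have h1 : (1 : ℝ) ≤ k := by exact_mod_cast (by omega : 1 ≤ k)
        apply one_div_le_one_div_of_le (by norm_num)
        linarith

theorem sum_sq_le (m : ℕ) (x : Fin m → ℝ) (hx : ∀ i, x i ≠ 0 ∧ |x i| ≤ 1 / 4) :
    ∑ i, x i ^ 2 ≤ m / 16 := by
  calc ∑ i, x i ^ 2 ≤ ∑ _i : Fin m, (1 / 16 : ℝ) := by
        apply Finset.sum_le_sum
        intro i _
        have h := (hx i).2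
        rw [abs_le] at h
        nlinarith [h.1, h.2]
    _ = m / 16 := by simp; ring

/-! ### from frames to the statement -/

/-- the matrix with rows `v x` -/
def mat {r m n : ℕ} (v : Fin r ⊕ (Fin m ⊕ Fin n) → Fin 3 → ℝ) :
    Matrix (Fin r ⊕ (Fin m ⊕ Fin n)) (Fin 3) ℝ := Matrix.of v

theorem of_frame (r m n : ℕ) (hm : 2 ≤ m) (hn : 2 ≤ n) (hr : 2 ≤ r)
    (v : Fin r ⊕ (Fin m ⊕ Fin n) → Fin 3 → ℝ) (c : ℝ) (hc : 0 < c)
    (hF : ∀ i j : Fin 3, ∑ x, v x i * v x j = if i = j then c else 0)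
    (hO : ∀ x y, x ≠ y → (v x 0 * v y 0 + v x 1 * v y 1 + v x 2 * v y 2 = 0 ↔ (broom r m n).Adj x y)) :
    Achieves (broom r m n)ᶜ 3 := by
  have hW : (mat v)ᵀ * mat v = c • 1 := by
    ext i j
    rw [Matrix.mul_apply]
    simp only [mat, Matrix.transpose_apply, Matrix.of_apply]
    rw [hF i j, Matrix.smul_apply, Matrix.one_apply]
    split_ifs <;> simp
  have hcard : Fintype.card (Fin r ⊕ (Fin m ⊕ Fin n)) = r + (m + n) := by simp
  obtain ⟨h1, h2, h3⟩ := Pool.Agent.Q200.Frame.frame_spec (mat v) c hc hW (by rw [hcard]; omega)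
  refine ⟨mat v * (mat v)ᵀ, ⟨?_, ?_⟩, 0, c, hc.ne, h1, h2, h3⟩
  · rw [Matrix.IsSymm, Matrix.transpose_mul, Matrix.transpose_transpose]
  · intro x y hxy
    have e : (mat v * (mat v)ᵀ) x y = v x 0 * v y 0 + v x 1 * v y 1 + v x 2 * v y 2 := by
      rw [Matrix.mul_apply, Fin.sum_univ_three]
      rfl
    rw [e, SimpleGraph.compl_adj, ne_eq, hO x y hxy]
    constructor
    · intro h; exact ⟨hxy, h⟩
    · intro h; exact h.2

/-! ### the three frames -/

theorem frame2 (m n : ℕ) (hm : 2 ≤ m) (hn : 2 ≤ n) : Achieves (broom 2 m n)ᶜ 3 := by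
  obtain ⟨x, hx0, hx⟩ := exists_small m hm
  obtain ⟨u, hu0, hu⟩ := exists_small n hn
  have hX := sum_sq_le m x hx
  have hU := sum_sq_le n u hu
  have hm' : (2 : ℝ) ≤ m := by exact_mod_cast hm
  have hn' : (2 : ℝ) ≤ n := by exact_mod_cast hn
  set X := ∑ i, x i ^ 2 with hXd
  set U := ∑ i, u i ^ 2 with hUd
  set α := Real.sqrt (m + n - U) with hα
  set β := Real.sqrt (m + n - X) with hβ
  have hα2 : α * α = m + n - U := Real.mul_self_sqrt (by linarith)
  have hβ2 : β * β = m + n - X := Real.mul_self_sqrt (by linarith)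
  have hα0 : α ≠ 0 := by
    intro h; rw [h] at hα2; linarith
  have hβ0 : β ≠ 0 := by
    intro h; rw [h] at hβ2; linarith
  refine of_frame 2 m n hm hn le_rfl
    (Sum.elim ![![α, 0, 0], ![0, β, 0]] (Sum.elim (fun i => ![0, x i, 1]) (fun j => ![u j, 0, 1])))
    (m + n) (by linarith) ?_ ?_
  · intro i j
    rw [Fintype.sum_sum_type, Fintype.sum_sum_type]
    fin_cases i <;> fin_cases j <;> simp [Fin.sum_univ_two, hx0, hu0]
    · rw [hα2]
      simp_rw [← sq]
      rw [← hUd]; ring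
    · rw [hβ2]
      simp_rw [← sq]
      rw [← hXd]; ring
  · rintro (i | i | i) (j | j | j) hne
    · fin_cases i <;> fin_cases j <;> simp [broom, R] at hne ⊢
    · fin_cases i <;> simp [broom, R, hβ0, (hx j).1]
    · fin_cases i <;> simp [broom, R, hα0, (hu j).1]
    · fin_cases j <;> simp [broom, R, hβ0, (hx i).1]
    · have h1 := abs_le.1 (hx i).2
      have h2 := abs_le.1 (hx j).2
      simp [broom, R]
      nlinarith
    · simp [broom, R]
    · fin_cases j <;> simp [broom, R, hα0, (hu i).1]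
    · simp [broom, R]
    · have h1 := abs_le.1 (hu i).2
      have h2 := abs_le.1 (hu j).2
      simp [broom, R]
      nlinarith

theorem frame3 (m n : ℕ) (hm : 2 ≤ m) (hn : 2 ≤ n) : Achieves (broom 3 m n)ᶜ 3 := by
  obtain ⟨y, hy0, hy⟩ := exists_small m hm
  obtain ⟨w, hw0, hw⟩ := exists_small n hn
  have hY := sum_sq_le m y hy
  have hW := sum_sq_le n w hw
  have hm' : (2 : ℝ) ≤ m := by exact_mod_cast hm
  have hn' : (2 : ℝ) ≤ n := by exact_mod_cast hn
  set Y := ∑ i, y i ^ 2 with hYd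
  set W := ∑ i, w i ^ 2 with hWd
  set α := Real.sqrt m with hα
  set γ := Real.sqrt n with hγ
  set β := Real.sqrt (m + n - Y - W) with hβ
  have hα2 : α * α = m := Real.mul_self_sqrt (by linarith)
  have hγ2 : γ * γ = n := Real.mul_self_sqrt (by linarith)
  have hβ2 : β * β = m + n - Y - W := Real.mul_self_sqrt (by linarith)
  have hα0 : α ≠ 0 := by
    intro h; rw [h] at hα2; linarith
  have hγ0 : γ ≠ 0 := by
    intro h; rw [h] at hγ2; linarith
  have hβ0 : β ≠ 0 := by
    intro h; rw [h] at hβ2; linarith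
  have hYs : ∑ i, y i * y i = Y := by rw [hYd]; simp_rw [sq]
  have hWs : ∑ i, w i * w i = W := by rw [hWd]; simp_rw [sq]
  refine of_frame 3 m n hm hn (by norm_num)
    (Sum.elim ![![α, 0, 0], ![0, 0, β], ![3 / 5 * γ, 4 / 5 * γ, 0]]
      (Sum.elim (fun i => ![0, 1, y i]) (fun j => ![-(4 / 5), 3 / 5, w j])))
    (m + n) (by linarith) ?_ ?_
  · intro i j
    rw [Fintype.sum_sum_type, Fintype.sum_sum_type]
    fin_cases i <;> fin_cases j <;>
      simp [Fin.sum_univ_three, ← Finset.mul_sum, ← Finset.sum_mul, hy0, hw0, hYs, hWs, hα2, hβ2] <;>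
      nlinarith [hγ2]
  · rintro (i | i | i) (j | j | j) hne
    · fin_cases i <;> fin_cases j <;> simp [broom, R, hα0, hγ0] at hne ⊢
    · fin_cases i <;> simp [broom, R, hβ0, hγ0, (hy j).1]
    · fin_cases i <;> simp [broom, R, hα0, hβ0, (hw j).1]
      ring
    · fin_cases j <;> simp [broom, R, hβ0, hγ0, (hy i).1]
    · have h1 := abs_le.1 (hy i).2
      have h2 := abs_le.1 (hy j).2
      simp [broom, R]
      nlinarith
    · have h1 := abs_le.1 (hy i).2
      have h2 := abs_le.1 (hw j).2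
      simp [broom, R]
      nlinarith
    · fin_cases j <;> simp [broom, R, hα0, hβ0, (hw i).1]
      ring
    · have h1 := abs_le.1 (hw i).2
      have h2 := abs_le.1 (hy j).2
      simp [broom, R]
      nlinarith
    · have h1 := abs_le.1 (hw i).2
      have h2 := abs_le.1 (hw j).2
      simp [broom, R]
      nlinarith

theorem frame4 (m n : ℕ) (hm : 2 ≤ m) (hn : 2 ≤ n) : Achieves (broom 4 m n)ᶜ 3 := by
  obtain ⟨x, hx0, hx⟩ := exists_small m hm
  obtain ⟨u, hu0, hu⟩ := exists_small n hn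
  have hX := sum_sq_le m x hx
  have hU := sum_sq_le n u hu
  have hm' : (2 : ℝ) ≤ m := by exact_mod_cast hm
  have hn' : (2 : ℝ) ≤ n := by exact_mod_cast hn
  set X := ∑ i, x i ^ 2 with hXd
  set U := ∑ i, u i ^ 2 with hUd
  set α := Real.sqrt m with hα
  set δ := Real.sqrt n with hδ
  set β := Real.sqrt (2 * m - X) with hβ
  set γ := Real.sqrt (2 * n - U) with hγ
  have hα2 : α * α = m := Real.mul_self_sqrt (by linarith)
  have hδ2 : δ * δ = n := Real.mul_self_sqrt (by linarith)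
  have hβ2 : β * β = 2 * m - X := Real.mul_self_sqrt (by linarith)
  have hγ2 : γ * γ = 2 * n - U := Real.mul_self_sqrt (by linarith)
  have hα0 : α ≠ 0 := by
    intro h; rw [h] at hα2; linarith
  have hδ0 : δ ≠ 0 := by
    intro h; rw [h] at hδ2; linarith
  have hβ0 : β ≠ 0 := by
    intro h; rw [h] at hβ2; linarith
  have hγ0 : γ ≠ 0 := by
    intro h; rw [h] at hγ2; linarith
  have hXs : ∑ i, x i * x i = X := by rw [hXd]; simp_rw [sq]
  have hUs : ∑ i, u i * u i = U := by rw [hUd]; simp_rw [sq]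
  have px : ∀ i, x i + 1 ≠ 0 := fun i => by have := abs_le.1 (hx i).2; linarith
  have pu : ∀ i, u i + 1 ≠ 0 := fun i => by have := abs_le.1 (hu i).2; linarith
  refine of_frame 4 m n hm hn (by norm_num)
    (Sum.elim ![![0, α, α], ![β, 0, 0], ![0, γ, 0], ![δ, 0, δ]]
      (Sum.elim (fun i => ![x i, -1, 1]) (fun j => ![-1, u j, 1])))
    (2 * m + 2 * n) (by linarith) ?_ ?_
  · intro i j
    rw [Fintype.sum_sum_type, Fintype.sum_sum_type]
    fin_cases i <;> fin_cases j <;>
      simp [Fin.sum_univ_four, hx0, hu0, hXs, hUs, hα2, hβ2, hγ2, hδ2] <;> ring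
  · rintro (i | i | i) (j | j | j) hne
    · fin_cases i <;> fin_cases j <;> simp [broom, R, hα0, hβ0, hγ0, hδ0] at hne ⊢
    · fin_cases i <;> simp [broom, R, hβ0, hγ0, (hx j).1]
      intro h
      exact mul_ne_zero hδ0 (px j) (by linarith)
    · fin_cases i <;> simp [broom, R, hγ0, hβ0, (hu j).1]
      intro h
      exact mul_ne_zero hα0 (pu j) (by linarith)
    · fin_cases j <;> simp [broom, R, hβ0, hγ0, (hx i).1]
      intro h
      exact mul_ne_zero hδ0 (px i) (by linarith)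
    · have h1 := abs_le.1 (hx i).2
      have h2 := abs_le.1 (hx j).2
      simp [broom, R]
      nlinarith
    · have h1 := abs_le.1 (hx i).2
      have h2 := abs_le.1 (hu j).2
      simp [broom, R]
      intro h
      linarith
    · fin_cases j <;> simp [broom, R, hγ0, hβ0, (hu i).1]
      intro h
      exact mul_ne_zero hα0 (pu i) (by linarith)
    · have h1 := abs_le.1 (hu i).2
      have h2 := abs_le.1 (hx j).2
      simp [broom, R]
      intro h
      linarith
    · have h1 := abs_le.1 (hu i).2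
      have h2 := abs_le.1 (hu j).2
      simp [broom, R]
      nlinarith

/-- **Main theorem (Q1, affirmative).** For `r ∈ {2,3,4}` and all `m, n ≥ 2` the complement of the
double broom `S^r_{m,n}` has `q = 2` and `MB = 3`. -/
theorem result : ∀ r ∈ ({2, 3, 4} : Set ℕ), ∀ m n : ℕ, 1 < m → 1 < n →
    q (broom r m n)ᶜ = 2 ∧ IsMB (broom r m n)ᶜ 3 := by
  intro r hr m n hm hn
  have hach : Achieves (broom r m n)ᶜ 3 := by
    rcases hr with rfl | rfl | rfl
    · exact frame2 m n hm hn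
    · exact frame3 m n hm hn
    · exact frame4 m n hm hn
  have hcard : Fintype.card (Fin r ⊕ (Fin m ⊕ Fin n)) = r + (m + n) := by simp
  -- an induced path
  obtain ⟨u, v, w, x, huv, hvw, hwx, huw, hux, hvx, n1, n2, n3⟩ :
      ∃ u v w x, (broom r m n).Adj u v ∧ (broom r m n).Adj v w ∧ (broom r m n).Adj w x ∧
        ¬ (broom r m n).Adj u w ∧ ¬ (broom r m n).Adj u x ∧ ¬ (broom r m n).Adj v x ∧
        u ≠ w ∧ u ≠ x ∧ v ≠ x := by
    have hm0 : 0 < m := by omega
    have hn0 : 0 < n := by omega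
    rcases hr with rfl | rfl | rfl
    · refine ⟨.inr (.inl ⟨0, hm0⟩), .inl 0, .inl 1, .inr (.inr ⟨0, hn0⟩), ?_, ?_, ?_, ?_, ?_, ?_,
        ?_, ?_, ?_⟩ <;> simp [broom, R]
    · refine ⟨.inr (.inl ⟨0, hm0⟩), .inl 0, .inl 1, .inl 2, ?_, ?_, ?_, ?_, ?_, ?_,
        ?_, ?_, ?_⟩ <;> simp [broom, R]
    · refine ⟨.inr (.inl ⟨0, hm0⟩), .inl 0, .inl 1, .inl 2, ?_, ?_, ?_, ?_, ?_, ?_,
        ?_, ?_, ?_⟩ <;> simp [broom, R]
  have hr2 : 2 ≤ r := by
    rcases hr with rfl | rfl | rfl <;> norm_num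
  constructor
  · have : Nonempty (Fin r ⊕ (Fin m ⊕ Fin n)) := ⟨u⟩
    exact Pool.Agent.Q200.Frame.q_eq_two (broom r m n)ᶜ v x
      ((SimpleGraph.compl_adj _ _ _).2 ⟨n3, hvx⟩) 3 hach
  · refine ⟨⟨by norm_num, by rw [hcard]; omega, hach⟩, ?_⟩
    rintro k ⟨hk1, hk2, hk⟩
    exact Pool.Agent.Q200.Frame.lower (broom r m n) u v w x huv hvw hwx huw hux hvx n1 n2 n3 k
      (by omega) hk

end Pool.Agent.Results.MP_4cbb29_co.BroomComplements
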